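import Pool.Agent.TH662.AP.Time

/-!
# Affine polynomial projection is `∃ℝ`-hard

`AffineProjection (n, f, g)`: `f`, `g` are polynomials with integer coefficients in `n` variables
(given by their coefficients) and there are a real `n × n` matrix `A` and `b ∈ ℝⁿ` with
`f(x) = g(A x + b)` for all `x ∈ ℝⁿ`.

Sketch of the proof. Let `g₁ = … = g_m = 0` be a system of homogeneous quadratic equations on `ℝⁿ`;
whether it has a nonzero real solution is `∃ℝ`-hard. Put `g(y, t) = ∑ g_l(y)² + t² ∑ y_i²` and
`f(x) = x₀² x₁²`. If `v` is a solution with `|v| = 1` then `t = x₀`, `y = x₁ v` shows that `f` is a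
projection of `g`. Conversely, let `f(x) = g(A x + b)`; comparing the homogeneous parts of degree
four, `f(x) = g(A x)`. On the hyperplane `x₀ = 0` all `g_l(y(x))` vanish, hence if there is no
nonzero solution then `y(x) = 0` if `x₀ = 0`, and also if `x₁ = 0`; so `y = 0` and `f = 0`, a
contradiction.
-/

namespace Pool.Agent.Results.MP_ca1301_lc.AffineProjectionHard

open Pool.Agent.NPC Pool.Agent.NPC.ER Pool.Agent.NPC.H612 Pool.Agent.TH662.AP

/-- Affine polynomial projection is `∃ℝ`-hard under polynomial-time many-one reductions. It remains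
so if `f` is the fixed monomial `x₀² x₁²` and `g` is homogeneous of degree four, where it coincides
with linear projection. -/
theorem result :
    ERHard (lang AffineProjection) ∧
    ∀ L : Set (List Bool), InER L →
      ∃ F : List Bool → ℕ × PolyData × PolyData, PolyTime (fun w => bits (F w)) ∧
        ∀ w, ∃ n f g, F w = (n, f, g) ∧ 2 ≤ n ∧ f.Valid n ∧ g.Valid n ∧
          (∀ x : Fin n → ℝ, pval x f = xt x 0 ^ 2 * xt x 1 ^ 2) ∧
          (∀ t ∈ g, t.2.sum = 4) ∧
          (w ∈ L ↔ IsAffineProjection n f g) ∧ (w ∈ L ↔ IsLinearProjection n f g) := by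
  refine ⟨fun L hL => ?_, Pool.Agent.NPC.TH662AP.main⟩
  obtain ⟨F, hF, h⟩ := Pool.Agent.NPC.TH662AP.main L hL
  refine ⟨fun w => bits (F w), hF, fun w => ?_⟩
  obtain ⟨n, f, g, e, _, hf, hg, _, _, h1, _⟩ := h w
  rw [h1]
  constructor
  · intro h2
    exact ⟨F w, rfl, by rw [e]; exact ⟨hf, hg, h2⟩⟩
  · rintro ⟨a, ha, h2⟩
    rw [bits_injective ha, e] at h2
    exact h2.2.2

end Pool.Agent.Results.MP_ca1301_lc.AffineProjectionHard
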